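import Mathlib
import Pool.Agent.T2h53.AS.Defs
import Pool.Agent.T2h53.AS.Dual
import Pool.Agent.T2h53.AS.Example

/-!
The conformal type of the complete hyperbolic affine sphere over a regular convex cone is the
same for a cone and its dual cone (the conormal surface of the sphere is the sphere over the dual
cone, with the same Blaschke metric up to a constant), whereas density of the 2-dimensional faces
is not invariant under duality.  Hence the proposed equivalence is false.
-/

namespace Pool.Agent.Results.MP_63dd76_gt.ConormalDuality

open Pool.Agent.T2h53.AS

theorem result : ∃ K : Set V3, IsRegularCone K ∧ ¬ (SpheresPlanar K ↔ FacesDense K) := by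
  by_contra hno
  push Not at hno
  obtain ⟨g, G, P⟩ := exists_profile
  have h1 := (hno (Kc g G) (Kc_regular P)).2 (Kc_facesDense P)
  have h2 : ¬ SpheresPlanar (dualCone (Kc g G)) := fun h =>
    Kd_not_facesDense P ((hno _ (Kd_regular P)).1 h)
  apply h2
  apply planar_of_dual (Kd_regular P)
  unfold Kc at h1 ⊢
  rw [dualCone_triple]
  exact h1

end Pool.Agent.Results.MP_63dd76_gt.ConormalDuality
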